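import Pool.Agent.Work.MP_8b6acb_tk.SideK
import Pool.Agent.Work.MP_8b6acb_ti.Side0

/-!
# Both sides for the set kernel in path form, with the credit of CT0' and the gains (helper32)
-/

namespace R5

namespace K

open Finset T7

variable {α : Type} [DecidableEq α]

/-- THE STATEWISE LEMMA for the set kernel (shape of `CT0_Av`), all T-states of `τ` in `D`. -/
def StateK (τ : Finset α → Lab) (D : Finset α) (ρ : Finset α → α → ℝ) : Prop :=
  ∀ W ⊆ D, W.Nonempty → τ W = Lab.B →
      lamn W.card * Av W (fun π => ∑ k ∈ range W.card,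
          iE τ π k * (((W.card : ℝ) - 1 - k) + n0 τ W π k)) ≤
        Av W (cstK τ (ρ (D \ W)) W) + Av W (fun π => ∑ i ∈ range W.card,
          iA τ π i * cc W.card (AL τ W (pre π i)).card (W.card - i))

/-- the gain of the marks on a path, T side -/
noncomputable def gT (τ : Finset α → Lab) (D : Finset α) (mk : Finset α → Finset α)
    (π : List α) : ℝ :=
  ((D.card : ℝ) - kN τ π) * (if τ (pre π (kA τ π + 1)) = Lab.B then
    gm mk D (D \ pre π (kA τ π)) else gm mk D (D \ pre π (kA τ π + 1)))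

/-- the gain of the marks on a path, S side -/
noncomputable def gS0 (τ : Finset α → Lab) (D : Finset α) (mk : Finset α → Finset α)
    (π : List α) : ℝ :=
  ((kA τ π : ℝ) + 1) * (if τ (pre π (kN τ π)) = Lab.A then
    gm mk D (pre π (kN τ π + 1)) else gm mk D (pre π (kN τ π)))

/-- the first exit of an order -/
theorem exit_kA {τ : Finset α → Lab} {D : Finset α} {π : List α} (h0 : τ ∅ = Lab.A)
    (hD : τ D ≠ Lab.A) (hπ : π ∈ seqs D.card D) :
    iE τ π (kA τ π) = (if τ (pre π (kA τ π + 1)) = Lab.B then 1 else 0) ∧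
    iX τ π (kA τ π) = (if τ (pre π (kA τ π + 1)) = Lab.B then 0 else 1) := by
  have h1 : allA τ π (kA τ π) := (allA_iff h0 hD hπ _).2 le_rfl
  have h2 : τ (pre π (kA τ π + 1)) ≠ Lab.A := by
    intro h
    have h3 : allA τ π (kA τ π + 1) := allA_succ.2 ⟨h1, h⟩
    have := (allA_iff h0 hD hπ _).1 h3
    omega
  constructor
  · unfold iE exE
    exact if_congr ⟨fun h => h.2, fun h => ⟨h1, h⟩⟩ rfl rfl
  · unfold iX exX
    by_cases hB : τ (pre π (kA τ π + 1)) = Lab.B
    · rw [if_pos hB, if_neg]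
      rintro ⟨-, h⟩
      rw [hB] at h
      exact absurd h (by decide)
    · rw [if_neg hB, if_pos]
      refine ⟨h1, ?_⟩
      revert h2 hB
      cases τ (pre π (kA τ π + 1)) <;> simp

/-- **the T side** for the set kernel, with CT0' and the gains -/
theorem T_side0_K (τ : Finset α → Lab) (D : Finset α) (ρ : Finset α → α → ℝ)
    (mk : Finset α → Finset α) (h0 : τ ∅ = Lab.A) (hD : τ D = Lab.B) (hK : StateK τ D ρ) :
    Av D (fun π => lowT0 τ D π + gT τ D mk π) ≤
    ((D.card : ℝ) + 1) * (SGs (dual τ D) D ρ mk - Real.log (D.card : ℝ) * PEL (dual τ D) D) := by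
  have hD' : τ D ≠ Lab.A := by rw [hD]; decide
  have h0' : τ ∅ ≠ Lab.B := by rw [h0]; decide
  refine le_trans (Av_mono fun π hπ => ?_) (T_side_path_K τ D ρ mk (n0 τ) h0 hD hK)
  have hAN := kA_le_kN h0 hD hπ
  have hNl := kN_lt h0' hD hπ
  have h3 : ∑ j ∈ Ioc (kN τ π) D.card, lamn j * n0 τ D π (kA τ π) ≤
      ∑ j ∈ Ioc (kN τ π) D.card, lamn j * n0 τ (pre π j) (π.take j) (kA τ π) := by
    apply sum_le_sum
    intro j hj
    rw [mem_Ioc] at hj
    exact mul_le_mul_of_nonneg_left (n0_mono τ hπ (by omega)) (lamn_nonneg' j)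
  rw [← sum_mul] at h3
  have h4 := mul_le_mul_of_nonneg_left h3 (iE_nonneg τ π (kA τ π))
  obtain ⟨e1, e2⟩ := exit_kA h0 hD' hπ
  have h5 : gT τ D mk π = ((D.card : ℝ) - kN τ π) *
      (iE τ π (kA τ π) * gm mk D (D \ pre π (kA τ π)) +
        iX τ π (kA τ π) * gm mk D (D \ pre π (kA τ π + 1))) := by
    unfold gT
    rw [e1, e2]
    split_ifs <;> ring
  rw [h5]
  unfold lowT0 lowP Lam at *
  linarith

/-- **the S side** for the set kernel, with CT0' and the gains -/
theorem S_side0_K (τ : Finset α → Lab) (D : Finset α) (ρ : Finset α → α → ℝ)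
    (mk : Finset α → Finset α) (h0 : τ ∅ = Lab.A) (hD : τ D = Lab.B)
    (hK : StateK (dual τ D) D ρ) :
    Av D (fun π => lowS0 τ D π + gS0 τ D mk π) ≤
    ((D.card : ℝ) + 1) * (SGs τ D ρ mk - Real.log (D.card : ℝ) * PEL τ D) := by
  have hD' : τ D ≠ Lab.A := by rw [hD]; decide
  have h0' : τ ∅ ≠ Lab.B := by rw [h0]; decide
  have d0 : dual τ D ∅ = Lab.A := by rw [dual_flip, sdiff_empty, hD]; rfl
  have dD : dual τ D D = Lab.B := by rw [dual_flip, sdiff_self, bot_eq_empty, h0]; rfl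
  have h1 := T_side0_K (dual τ D) D ρ mk d0 dD hK
  rw [PEL_dual_dual] at h1
  unfold SGs at h1 ⊢
  rw [SGx_dual_dual] at h1
  refine le_trans (le_of_eq ?_) h1
  rw [← Av_reverse D (fun π => lowT0 (dual τ D) D π + gT (dual τ D) D mk π)]
  refine Av_congr fun π hπ => ?_
  rw [lowS0_eq h0 hD hπ]
  congr 1
  have hAN := kA_le_kN h0 hD hπ
  have hNl := kN_lt h0' hD hπ
  unfold gS0 gT
  rw [kA_dual h0 hD hπ, kN_dual h0 hD hπ, pre_reverse hπ (by omega), pre_reverse hπ (by omega)]
  have e1 : D.card - (D.card - 1 - kN τ π) = kN τ π + 1 := by omega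
  have e2 : D.card - (D.card - 1 - kN τ π + 1) = kN τ π := by omega
  rw [e1, e2, dual_flip, Finset.sdiff_sdiff_eq_self (pre_subset_of_mem hπ _),
    Finset.sdiff_sdiff_eq_self (pre_subset_of_mem hπ _)]
  have e3 : (D.card : ℝ) - ((D.card - 1 - kA τ π : ℕ) : ℝ) = (kA τ π : ℝ) + 1 := by
    have e : (D.card - 1 - kA τ π) + (kA τ π + 1) = D.card := by omega
    have e' : ((D.card - 1 - kA τ π : ℕ) : ℝ) + ((kA τ π : ℝ) + 1) = D.card := by exact_mod_cast e
    linarith
  rw [e3, if_congr (flip_eq_B) rfl rfl]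

end K

end R5
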