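import Pool.Agent.Work.MP_8b6acb_tk.Side0K
import Pool.Agent.Work.MP_8b6acb_ti_helper32.S0T

/-!
# (S0') for the set kernel (helper32)

`S0_K`: the bound `lwS` of (S0') for a T-state with the set kernel; `side_S0_K`: the path form
for types without lights.
-/

namespace R5

namespace K

open Finset T7

variable {α : Type} [DecidableEq α]

/-- The minimal cost of the T-state `V`: `cstK` without the entropy of the orders. -/
noncomputable def cst0 (τ : Finset α → Lab) (ρ : α → ℝ) (V : Finset α) (π : List α) : ℝ :=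
  ∑ k ∈ range V.card,
    (iE τ π k * (∑ x ∈ nx π k, (-Real.log (ρ x)) +
      (k : ℝ) * Lf V.card (∑ x ∈ V \ pre π k, ρ x)) +
     iX τ π k * (((k : ℝ) + 1) * Lf V.card (∑ x ∈ V \ pre π (k + 1), ρ x)))

theorem fw_le_one' (τ : Finset α → Lab) (V : Finset α) : fw τ V ≤ 1 := by
  rw [fw_eq_Av]
  calc _ ≤ Av V (fun _ => (1 : ℝ)) := Av_mono fun π _ => by split_ifs <;> norm_num
    _ = 1 := Av_const V 1

theorem fwb_le_one' (τ : Finset α → Lab) (V : Finset α) : fwb τ V ≤ 1 := by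
  rcases V.eq_empty_or_nonempty with rfl | hne
  · simp [fwb]
  · rw [fwb_eq_Av τ hne]
    calc _ ≤ Av V (fun _ => (1 : ℝ)) := Av_mono fun π _ => by split_ifs <;> norm_num
      _ = 1 := Av_const V 1

theorem fw_nonneg' (τ : Finset α → Lab) (V : Finset α) : 0 ≤ fw τ V := by
  rw [fw_eq_Av]
  exact Av_nonneg fun π _ => by split_ifs <;> norm_num

theorem fwb_nonneg' (τ : Finset α → Lab) (V : Finset α) : 0 ≤ fwb τ V := by
  unfold fwb
  exact div_nonneg (sum_nonneg fun x _ => fw_nonneg' τ _) (Nat.cast_nonneg _)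

theorem cst0_le (τ : Finset α → Lab) (ρ : α → ℝ) (V : Finset α) (π : List α) :
    cst0 τ ρ V π ≤ cstK τ ρ V π := by
  unfold cst0 cstK
  refine sum_le_sum fun k _ => ?_
  have h1 : 0 ≤ -Real.log (fw τ (pre π k)) := by
    have := Real.log_nonpos (fw_nonneg' τ (pre π k)) (fw_le_one' τ _)
    linarith
  have h2 : 0 ≤ -Real.log (fwb τ (pre π (k + 1))) := by
    have := Real.log_nonpos (fwb_nonneg' τ (pre π (k + 1))) (fwb_le_one' τ _)
    linarith
  have h3 := mul_nonneg (iE_nonneg τ π k) h1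
  have h4 := mul_nonneg (iX_nonneg τ π k) h2
  nlinarith [h3, h4]

/-- The path functional `phiM` of the dual state is the minimal cost. -/
theorem PM_rev {σ : Finset α → Lab} {D W : Finset α} {π : List α} (hW : W ⊆ D)
    (hπ : π ∈ seqs W.card W) (ρ : α → ℝ) :
    psum (phiM (dual σ D) ρ (W.card : ℝ) (D \ W)) (D \ W) π.reverse = cst0 σ ρ W π := by
  unfold cst0
  rw [bridge hW hπ]
  refine sum_congr rfl fun k hk => ?_
  rw [mem_range, ← length_of_mem hπ] at hk
  rw [Th_take _ D hk]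
  obtain ⟨h1, h2, h3, h4⟩ := path_facts (σ := σ) hW hπ hk
  have hnd := (mem_seqs_card.1 hπ).1
  have hkl : (π.take k).length = k := by rw [List.length_take]; omega
  have hs : ∀ j, (D \ pre π j) \ (D \ W) = W \ pre π j := by
    intro j
    ext y
    simp only [mem_sdiff, not_and, not_not]
    constructor
    · rintro ⟨⟨h1, h2⟩, h3⟩
      exact ⟨h3 h1, h2⟩
    · rintro ⟨h1, h2⟩
      exact ⟨⟨hW h1, h2⟩, fun _ => h1⟩
  unfold phiM
  rw [h3, h4, nx_eq hnd hk, sum_singleton, hs, hs, List.length_reverse, hkl]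
  have h5 := isE_rev (σ := σ) hW hπ hk
  unfold Lf
  congr 1
  · by_cases hE : exE σ π k
    · rw [iE_pos hE, if_pos (h5.2 ⟨hE.2, hE.1 k (by simp)⟩), iA_pos hE.1]
    · rw [iE_neg hE, zero_mul]
      by_cases h6 : isE (dual σ D) (D \ pre π (k + 1)) π[k]
      · rw [if_pos h6, iA_neg fun h => hE ⟨h, (h5.1 h6).1⟩, zero_mul]
      · rw [if_neg h6]
  · have h7 : dual σ D (D \ pre π (k + 1)) = Lab.X ↔ σ (pre π (k + 1)) = Lab.X := by
      rw [dual_sdiff σ h1, flip_eq_X]
    by_cases hE : exX σ π k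
    · rw [iX_pos hE, if_pos (h7.2 hE.2), iA_pos hE.1]
    · have : iX σ π k = 0 := if_neg hE
      rw [this, zero_mul]
      by_cases h6 : dual σ D (D \ pre π (k + 1)) = Lab.X
      · rw [if_pos h6, iA_neg fun h => hE ⟨h, h7.1 h6⟩, zero_mul]
      · rw [if_neg h6]

/-- (S0') for the minimal cost: `a` = number of own lights. -/
theorem S0_cst0 (σ : Finset α → Lab) (D : Finset α) (ρ : α → ℝ) (h0 : σ ∅ = Lab.A)
    (W : Finset α) (hW : W ⊆ D) (hB : σ W = Lab.B) (hρ : ∀ x ∈ W, 0 < ρ x ∧ ρ x ≤ 1) :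
    Av W (fun π => (∑ k ∈ range W.card, iE σ π k) * (lamn W.card *
      ((W.card : ℝ) - kN σ π - ((W.filter (fun x => σ {x} = Lab.B)).card : ℝ)))) ≤
      Av W (cst0 σ ρ W) := by
  have hDD : D \ (D \ W) = W := Finset.sdiff_sdiff_eq_self hW
  have hA : dual σ D (D \ W) = Lab.A := by rw [dual_sdiff σ hW, flip_eq_A]; exact hB
  have hD : dual σ D D = Lab.B := by
    rw [dual_flip, sdiff_self, bot_eq_empty, flip_eq_B]; exact h0
  have h0' : σ ∅ ≠ Lab.B := by rw [h0]; decide
  have e1 := S0 (dual σ D) D (D \ W) sdiff_subset hA hD ρ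
    (by rw [hDD]; exact fun x hx => (hρ x hx).1) (by rw [hDD]; exact fun x hx => (hρ x hx).2)
    W.card (by rw [hDD])
  have ea : (D \ (D \ W)).filter (fun x => dual σ D (D.erase x) = Lab.A) =
      W.filter (fun x => σ {x} = Lab.B) := by
    rw [hDD]
    refine filter_congr fun x hx => ?_
    rw [dual_flip, flip_eq_A]
    have : D \ D.erase x = {x} := by
      ext z
      simp only [mem_sdiff, mem_erase, mem_singleton]
      constructor
      · rintro ⟨h1, h2⟩
        by_contra h3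
        exact h2 ⟨h3, h1⟩
      · rintro rfl
        exact ⟨hW hx, fun h => h.1 rfl⟩
    rw [this]
  rw [ea] at e1
  simp only [hDD] at e1
  rw [← Eo_reverse W (fun π => leI (dual σ D) (D \ W) π * (arun (dual σ D) (D \ W) π : ℝ)),
    ← Eo_reverse W (leI (dual σ D) (D \ W)), ← Eo_reverse W (psum _ _)] at e1
  have t2 : Eo W (fun π => leI (dual σ D) (D \ W) π.reverse) = Eo W (fun π =>
      ∑ k ∈ range W.card, iE σ π k) := Eo_congr fun π hπ => leI_rev hW hπ
  have t3 : Eo W (fun π => psum (phiM (dual σ D) ρ (W.card : ℝ) (D \ W)) (D \ W)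
      π.reverse) = Eo W (cst0 σ ρ W) := Eo_congr fun π hπ => PM_rev hW hπ ρ
  have t4 : Eo W (fun π => leI (dual σ D) (D \ W) π.reverse *
      (arun (dual σ D) (D \ W) π.reverse : ℝ)) = Eo W (fun π =>
      (∑ k ∈ range W.card, iE σ π k) * ((W.card : ℝ) - 1 - kN σ π)) :=
    Eo_congr fun π hπ => by
    have hm := mem_seqs_card.1 hπ
    have h1 := arun_rev σ D h0' π hm.1 (fun x hx => hW (by
      rw [← hm.2]; exact List.mem_toFinset.2 hx)) (by rw [hm.2]; exact hB)
    rw [hm.2, length_of_mem hπ] at h1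
    have h2 : (arun (dual σ D) (D \ W) π.reverse : ℝ) = (W.card : ℝ) - 1 - kN σ π := by
      have : (arun (dual σ D) (D \ W) π.reverse : ℝ) + 1 + (kN σ π : ℝ) = (W.card : ℝ) := by
        exact_mod_cast h1
      linarith
    rw [leI_rev hW hπ, h2]
  rw [t2, t3, t4] at e1
  have r1 : Av W (fun π => (∑ k ∈ range W.card, iE σ π k) * (lamn W.card *
      ((W.card : ℝ) - kN σ π - ((W.filter (fun x => σ {x} = Lab.B)).card : ℝ)))) =
      lamn W.card * (Eo W (fun π =>
        (∑ k ∈ range W.card, iE σ π k) * ((W.card : ℝ) - 1 - kN σ π)) +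
      (1 - ((W.filter (fun x => σ {x} = Lab.B)).card : ℝ)) *
        Eo W (fun π => ∑ k ∈ range W.card, iE σ π k)) := by
    rw [← Eo_mul, ← Eo_add, ← Eo_mul]
    refine Eo_congr fun π _ => ?_
    ring
  rw [r1]
  exact e1

/-- (S0') for the set kernel, in the form used by `side_total_K`. -/
theorem S0_K (σ : Finset α → Lab) (D : Finset α) (ρ : Finset α → α → ℝ)
    (mk : Finset α → Finset α) (h0 : σ ∅ = Lab.A) (W : Finset α) (hW : W ⊆ D)
    (hB : σ W = Lab.B) (hρ : ∀ x ∈ W, 0 < ρ (D \ W) x ∧ ρ (D \ W) x ≤ 1) :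
    Av W (lwS σ D mk W) ≤
      Av W (fun π => TSx σ D ρ (cset ρ mk D) W π -
        Real.log (D.card : ℝ) * ∑ k ∈ range W.card, iE σ π k) := by
  have h1 := S0_cst0 σ D (ρ (D \ W)) h0 W hW hB hρ
  have h2 : Av W (cst0 σ (ρ (D \ W)) W) ≤ Av W (cstK σ (ρ (D \ W)) W) :=
    Av_mono fun π _ => cst0_le σ _ W π
  have r1 : Av W (lwS σ D mk W) = Av W (gnK σ D mk W.card) +
      (Real.log (W.card : ℝ) - Real.log (D.card : ℝ)) *
        Av W (fun π => ∑ k ∈ range W.card, iE σ π k) +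
      Av W (fun π => (∑ k ∈ range W.card, iE σ π k) * (lamn W.card *
        ((W.card : ℝ) - kN σ π - ((W.filter (fun x => σ {x} = Lab.B)).card : ℝ)))) := by
    rw [← Av_mul, ← Av_add, ← Av_add]
    refine Av_congr fun π _ => ?_
    unfold lwS gnK
    ring
  have r2 : Av W (fun π => TSx σ D ρ (cset ρ mk D) W π -
        Real.log (D.card : ℝ) * ∑ k ∈ range W.card, iE σ π k) =
        (Real.log (W.card : ℝ) - Real.log (D.card : ℝ)) *
          Av W (fun π => ∑ k ∈ range W.card, iE σ π k) + Av W (cstK σ (ρ (D \ W)) W) +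
          Av W (gnK σ D mk W.card) := by
    rw [← Av_mul, ← Av_add, ← Av_add]
    refine Av_congr fun π hπ => ?_
    rw [TSx_cset σ ρ mk hW hπ]
    ring
  rw [r1, r2]
  linarith

/-- the last level before the final B-run of an initial segment -/
theorem kN_take {τ : Finset α → Lab} {D : Finset α} {π : List α} (h0 : τ ∅ ≠ Lab.B)
    (hD : τ D = Lab.B) (hπ : π ∈ seqs D.card D) {j : ℕ} (hj : kN τ π < j) (hjl : j ≤ D.card) :
    kN τ (π.take j) = kN τ π := by
  have hB : allB τ π j := (allB_iff h0 hD hπ j).2 hj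
  have hl := length_of_mem hπ
  have hτ : τ (pre π j) = Lab.B := hB j (by rw [mem_Icc, hl]; exact ⟨le_rfl, hjl⟩)
  have hm : π.take j ∈ seqs (pre π j).card (pre π j) := take_mem hπ j
  have hlt : (π.take j).length = j := by rw [List.length_take, hl, min_eq_left hjl]
  have key : ∀ i ≤ j, (kN τ (π.take j) < i ↔ kN τ π < i) := by
    intro i hi
    rw [← allB_iff h0 hτ hm, ← allB_iff h0 hD hπ]
    constructor
    · intro h k hk
      rw [mem_Icc] at hk
      by_cases hkj : k ≤ j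
      · have := h k (by rw [mem_Icc, hlt]; exact ⟨hk.1, hkj⟩)
        rwa [pre_take hkj] at this
      · exact hB k (by rw [mem_Icc]; exact ⟨by omega, hk.2⟩)
    · intro h k hk
      rw [mem_Icc, hlt] at hk
      rw [pre_take hk.2]
      exact h k (by rw [mem_Icc, hl]; exact ⟨hk.1, hk.2.trans hjl⟩)
  have h1 := kN_lt h0 hτ hm
  rw [card_pre_of_mem hπ hjl] at h1
  have h2 := (key (kN τ (π.take j) + 1) (by omega)).1 (Nat.lt_succ_self _)
  have h3 := (key (kN τ π + 1) (by omega)).2 (Nat.lt_succ_self _)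
  omega

/-- the path form of (S0') for the T side: `a` = number of lights of `τ` -/
theorem side_S0_K' (τ : Finset α → Lab) (D : Finset α) (ρ : Finset α → α → ℝ)
    (mk : Finset α → Finset α) (h0 : τ ∅ = Lab.A) (hD : τ D = Lab.B)
    (hρ : ∀ X ⊆ D, ∀ g ∈ D \ X, 0 < ρ X g ∧ ρ X g ≤ 1) :
    Av D (fun π => iE τ π (kA τ π) * (∑ j ∈ Ioc (kN τ π) D.card, lamn j *
        (1 - (((pre π j).filter (fun x => τ {x} = Lab.B)).card : ℝ))) + gT τ D mk π) ≤
    ((D.card : ℝ) + 1) * (SGs (dual τ D) D ρ mk - Real.log (D.card : ℝ) * PEL (dual τ D) D) := by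
  have hD' : τ D ≠ Lab.A := by rw [hD]; decide
  have h0' : τ ∅ ≠ Lab.B := by rw [h0]; decide
  refine le_trans (le_of_eq ?_) (side_total_K τ D ρ (cset ρ mk D) h0 hD (lwS τ D mk)
    (fun W hW _ hB => S0_K τ D ρ mk h0 W hW hB fun x hx => hρ (D \ W) sdiff_subset x (by
      rw [Finset.sdiff_sdiff_eq_self hW]; exact hx)))
  refine Av_congr fun π hπ => ?_
  have hAN := kA_le_kN h0 hD hπ
  have hNl := kN_lt h0' hD hπ
  have h1 : ∀ j ∈ Ioc (kN τ π) D.card, lwS τ D mk (pre π j) (π.take j) =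
      (iE τ π (kA τ π) * gm mk D (D \ pre π (kA τ π)) +
          iX τ π (kA τ π) * gm mk D (D \ pre π (kA τ π + 1))) +
      iE τ π (kA τ π) * ((Real.log (j : ℝ) - Real.log (D.card : ℝ)) +
        lamn j * ((j : ℝ) - 1 - kN τ π) + lamn j *
        (1 - (((pre π j).filter (fun x => τ {x} = Lab.B)).card : ℝ))) := by
    intro j hj
    rw [mem_Ioc] at hj
    have hc : (pre π j).card = j := card_pre_of_mem hπ hj.2
    have e1 := gnK_take τ D mk h0 hD' hπ (j := j) (by omega)
    unfold gnK at e1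
    have e2 : ∑ k ∈ range j, iE τ (π.take j) k = iE τ π (kA τ π) := by
      have e3 : ∑ k ∈ range j, iE τ (π.take j) k = ∑ k ∈ range j, iE τ π k * 1 := by
        refine sum_congr rfl fun k hk => ?_
        rw [mem_range] at hk
        rw [mul_one]
        apply iE_congr
        unfold exE
        rw [allA_take hk.le, pre_take hk]
      rw [e3, sum_iE h0 hD' hπ (by omega), mul_one]
    unfold lwS
    rw [hc, e1, e2, kN_take h0' hD hπ hj.1 hj.2]
    ring
  rw [sum_congr rfl h1, sum_add_distrib, sum_const, Nat.card_Ioc, nsmul_eq_mul,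
    Nat.cast_sub hNl.le, ← mul_sum, sum_add_distrib, sum_add_distrib, sum_log_Ioc hNl.le]
  obtain ⟨e1, e2⟩ := exit_kA h0 hD' hπ
  have h5 : gT τ D mk π = ((D.card : ℝ) - kN τ π) *
      (iE τ π (kA τ π) * gm mk D (D \ pre π (kA τ π)) +
        iX τ π (kA τ π) * gm mk D (D \ pre π (kA τ π + 1))) := by
    unfold gT
    rw [e1, e2]
    split_ifs <;> ring
  rw [h5]
  ring

/-- the path form of (S0') without lights: the T side is at least `E[L; fe]` + gains -/
theorem side_S0_K (τ : Finset α → Lab) (D : Finset α) (ρ : Finset α → α → ℝ)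
    (mk : Finset α → Finset α) (h0 : τ ∅ = Lab.A) (hD : τ D = Lab.B)
    (hJ : ∀ x ∈ D, τ {x} ≠ Lab.B)
    (hρ : ∀ X ⊆ D, ∀ g ∈ D \ X, 0 < ρ X g ∧ ρ X g ≤ 1) :
    Av D (fun π => iE τ π (kA τ π) * Lam (kN τ π) D.card + gT τ D mk π) ≤
    ((D.card : ℝ) + 1) * (SGs (dual τ D) D ρ mk - Real.log (D.card : ℝ) * PEL (dual τ D) D) := by
  refine le_trans (le_of_eq (Av_congr fun π hπ => ?_)) (side_S0_K' τ D ρ mk h0 hD hρ)
  congr 2
  unfold Lam
  refine sum_congr rfl fun j _ => ?_
  have h1 : (pre π j).filter (fun x => τ {x} = Lab.B) = ∅ := by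
    rw [filter_eq_empty_iff]
    exact fun x hx => hJ x (pre_subset_of_mem hπ j hx)
  rw [h1, card_empty]
  norm_num

end K

end R5
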