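import Pool.Agent.Work.MP_8b6acb_tk.TFormK

/-!
# The set kernel: the cost of a T-state and the T side in path form (helper32)

`cstK` is the cost of a T-state for the set kernel.  `T_side_path_K` turns a statewise lemma of the
shape of `T7L_Av` / `CT0_Av` (with any credit `cr`) into a bound for the T side in path form.
-/

namespace R5

namespace K

open Finset T7

variable {α : Type} [DecidableEq α]

/-- The cost of the T-state `V` for the set kernel. -/
noncomputable def cstK (τ : Finset α → Lab) (ρ : α → ℝ) (V : Finset α) (π : List α) : ℝ :=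
  ∑ k ∈ range V.card,
    (iE τ π k * (∑ x ∈ nx π k, (-Real.log (ρ x)) +
      (k : ℝ) * Lf V.card (∑ x ∈ V \ pre π k, ρ x) - Real.log (fw τ (pre π k))) +
     iX τ π k * (((k : ℝ) + 1) * Lf V.card (∑ x ∈ V \ pre π (k + 1), ρ x) -
      Real.log (fwb τ (pre π (k + 1)))))

/-- The gain of the marks along an order (T-form). -/
noncomputable def gnK (τ : Finset α → Lab) (D : Finset α) (mk : Finset α → Finset α)
    (n : ℕ) (π : List α) : ℝ :=
  ∑ k ∈ range n, (iE τ π k * gm mk D (D \ pre π k) + iX τ π k * gm mk D (D \ pre π (k + 1)))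

/-- the extra part in dual form -/
theorem cset_dual (ρ : Finset α → α → ℝ) (mk : Finset α → Finset α) {D W P : Finset α}
    (hW : W ⊆ D) (hP : P ⊆ W) :
    cset ρ mk D (D \ W) (D \ P) =
      gm mk D (D \ P) + (P.card : ℝ) * Lf W.card (∑ x ∈ W \ P, ρ (D \ W) x) := by
  unfold cset Lf
  have h1 : (D \ P) \ (D \ W) = W \ P := by
    ext y
    simp only [mem_sdiff, not_and, not_not]
    constructor
    · rintro ⟨⟨h1, h2⟩, h3⟩
      exact ⟨h3 h1, h2⟩
    · rintro ⟨h1, h2⟩
      exact ⟨⟨hW h1, h2⟩, fun _ => h1⟩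
  have h3 : (D.card : ℝ) - ((D \ W).card : ℝ) = (W.card : ℝ) := by
    rw [card_sdiff_cast hW]
    ring
  have h4 : (D.card : ℝ) - ((D \ P).card : ℝ) = (P.card : ℝ) := by
    rw [card_sdiff_cast (hP.trans hW)]
    ring
  rw [h1, h3, h4]

/-- the functional of a T-state for the set kernel -/
theorem TSx_cset (τ : Finset α → Lab) {D W : Finset α} (ρ : Finset α → α → ℝ)
    (mk : Finset α → Finset α) (hW : W ⊆ D) {π : List α} (hπ : π ∈ seqs W.card W) :
    TSx τ D ρ (cset ρ mk D) W π = Real.log (W.card : ℝ) * ∑ k ∈ range W.card, iE τ π k +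
      cstK τ (ρ (D \ W)) W π + gnK τ D mk W.card π := by
  unfold TSx cstK gnK
  rw [mul_sum, ← sum_add_distrib, ← sum_add_distrib]
  refine sum_congr rfl fun k hk => ?_
  rw [mem_range] at hk
  have hP : ∀ i, pre π i ⊆ W := fun i => pre_subset_of_mem hπ i
  have hc1 : ((pre π k).card : ℝ) = k := by rw [card_pre_of_mem hπ hk.le]
  have hc2 : ((pre π (k + 1)).card : ℝ) = (k : ℝ) + 1 := by
    rw [card_pre_of_mem hπ hk]
    push_cast
    rfl
  rw [cset_dual ρ mk hW (hP k), cset_dual ρ mk hW (hP (k + 1)), hc1, hc2]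
  have h3 : ∑ x ∈ nx π k, (Real.log (W.card : ℝ) - Real.log (ρ (D \ W) x)) =
      ∑ x ∈ nx π k, (-Real.log (ρ (D \ W) x)) + Real.log (W.card : ℝ) := by
    rw [← sum_nx_add hπ hk]
    refine sum_congr rfl fun x _ => by ring
  rw [h3]
  unfold iE iX
  split_ifs <;> ring

/-- Lower bound of one T-state: the bound `low` with a credit `cr`. -/
noncomputable def lowC (τ : Finset α → Lab) (l : ℕ) (cr : Finset α → List α → ℕ → ℝ)
    (W : Finset α) (π : List α) : ℝ :=
  low τ l W π + lamn W.card * ∑ k ∈ range W.card, iE τ π k * cr W π k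

/-- the path form of the T side for an abstract statewise lemma -/
theorem T_side_path_gen (τ : Finset α → Lab) (D : Finset α) (h0 : τ ∅ = Lab.A)
    (hD : τ D = Lab.B) (cr : Finset α → List α → ℕ → ℝ) {π : List α}
    (hπ : π ∈ seqs D.card D) :
    ∑ j ∈ Ioc (kN τ π) D.card, lowC τ D.card cr (pre π j) (π.take j) =
      lowP τ D π + iE τ π (kA τ π) *
        ∑ j ∈ Ioc (kN τ π) D.card, lamn j * cr (pre π j) (π.take j) (kA τ π) := by
  have hD' : τ D ≠ Lab.A := by rw [hD]; decide
  have h0' : τ ∅ ≠ Lab.B := by rw [h0]; decide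
  have hAN := kA_le_kN h0 hD hπ
  have h1 := low_eval h0 hD hπ
  rw [sum_iB h0' hD hπ (fun j => low τ D.card (pre π j) (π.take j))] at h1
  unfold lowC
  rw [sum_add_distrib, h1]
  congr 1
  rw [mul_sum]
  refine sum_congr rfl fun j hj => ?_
  rw [mem_Ioc] at hj
  have hc : (pre π j).card = j := card_pre_of_mem hπ hj.2
  rw [hc]
  have e1 : ∑ k ∈ range j, iE τ (π.take j) k * cr (pre π j) (π.take j) k =
      ∑ k ∈ range j, iE τ π k * cr (pre π j) (π.take j) k := by
    refine sum_congr rfl fun k hk => ?_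
    rw [mem_range] at hk
    congr 1
    apply iE_congr
    unfold exE
    rw [allA_take hk.le, pre_take hk]
  rw [e1, sum_iE h0 hD' hπ (by omega)]
  ring

/-- the gain on a path -/
theorem gnK_take (τ : Finset α → Lab) (D : Finset α) (mk : Finset α → Finset α)
    (h0 : τ ∅ = Lab.A) (hD : τ D ≠ Lab.A) {π : List α} (hπ : π ∈ seqs D.card D) {j : ℕ}
    (hk : kA τ π < j) :
    gnK τ D mk j (π.take j) = iE τ π (kA τ π) * gm mk D (D \ pre π (kA τ π)) +
      iX τ π (kA τ π) * gm mk D (D \ pre π (kA τ π + 1)) := by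
  unfold gnK
  have e1 : ∀ k ∈ range j, iE τ (π.take j) k * gm mk D (D \ pre (π.take j) k) +
      iX τ (π.take j) k * gm mk D (D \ pre (π.take j) (k + 1)) =
      iE τ π k * gm mk D (D \ pre π k) + iX τ π k * gm mk D (D \ pre π (k + 1)) := by
    intro k hk
    rw [mem_range] at hk
    rw [pre_take hk.le, pre_take hk]
    have h1 : iE τ (π.take j) k = iE τ π k := by
      apply iE_congr
      unfold exE
      rw [allA_take hk.le, pre_take hk]
    have h2 : iX τ (π.take j) k = iX τ π k := by
      apply iX_congr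
      unfold exX
      rw [allA_take hk.le, pre_take hk]
    rw [h1, h2]
  rw [sum_congr rfl e1]
  refine (sum_eq_single (kA τ π) ?_ ?_)
  · intro k hk' hne
    rw [mem_range] at hk'
    have h1 : ¬ allA τ π k ∨ (k + 1 ≤ kA τ π) := by
      rw [allA_iff h0 hD hπ]
      omega
    have h2 : ¬ exE τ π k := by
      rintro ⟨h3, h4⟩
      rcases h1 with h1 | h1
      · exact h1 h3
      · have h5 := (allA_iff h0 hD hπ (k + 1)).2 h1
        have h6 := (allA_succ.1 h5).2
        rw [h4] at h6
        exact absurd h6 (by decide)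
    have h3 : ¬ exX τ π k := by
      rintro ⟨h3, h4⟩
      rcases h1 with h1 | h1
      · exact h1 h3
      · have h5 := (allA_iff h0 hD hπ (k + 1)).2 h1
        have h6 := (allA_succ.1 h5).2
        rw [h4] at h6
        exact absurd h6 (by decide)
    rw [iE_neg h2, iX_neg h3]
    ring
  · intro h
    exact absurd (mem_range.2 hk) h

/-- **the T side for the set kernel** -/
theorem T_side_path_K (τ : Finset α → Lab) (D : Finset α) (ρ : Finset α → α → ℝ)
    (mk : Finset α → Finset α) (cr : Finset α → List α → ℕ → ℝ)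
    (h0 : τ ∅ = Lab.A) (hD : τ D = Lab.B)
    (hK : ∀ W ⊆ D, W.Nonempty → τ W = Lab.B →
      lamn W.card * Av W (fun π => ∑ k ∈ range W.card,
          iE τ π k * (((W.card : ℝ) - 1 - k) + cr W π k)) ≤
        Av W (cstK τ (ρ (D \ W)) W) + Av W (fun π => ∑ i ∈ range W.card,
          iA τ π i * cc W.card (AL τ W (pre π i)).card (W.card - i))) :
    Av D (fun π => lowP τ D π + iE τ π (kA τ π) *
        (∑ j ∈ Ioc (kN τ π) D.card, lamn j * cr (pre π j) (π.take j) (kA τ π)) +
        ((D.card : ℝ) - kN τ π) *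
          (iE τ π (kA τ π) * gm mk D (D \ pre π (kA τ π)) +
            iX τ π (kA τ π) * gm mk D (D \ pre π (kA τ π + 1)))) ≤
    ((D.card : ℝ) + 1) * (SGs (dual τ D) D ρ mk - Real.log (D.card : ℝ) * PEL (dual τ D) D) := by
  have hD' : τ D ≠ Lab.A := by rw [hD]; decide
  have h0' : τ ∅ ≠ Lab.B := by rw [h0]; decide
  refine le_trans (le_of_eq ?_) (side_total_K τ D ρ (cset ρ mk D) h0 hD
    (fun W π => lowC τ D.card cr W π + gnK τ D mk W.card π) ?_)
  · refine Av_congr fun π hπ => ?_
    have hAN := kA_le_kN h0 hD hπ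
    have hNl := kN_lt h0' hD hπ
    rw [sum_add_distrib, T_side_path_gen τ D h0 hD cr hπ]
    congr 1
    have h1 : ∀ j ∈ Ioc (kN τ π) D.card, gnK τ D mk (pre π j).card (π.take j) =
        iE τ π (kA τ π) * gm mk D (D \ pre π (kA τ π)) +
          iX τ π (kA τ π) * gm mk D (D \ pre π (kA τ π + 1)) := by
      intro j hj
      rw [mem_Ioc] at hj
      rw [card_pre_of_mem hπ hj.2]
      exact gnK_take τ D mk h0 hD' hπ (by omega)
    rw [sum_congr rfl h1, sum_const, Nat.card_Ioc, nsmul_eq_mul, Nat.cast_sub hNl.le]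
  · intro W hW hne hB
    have h7 := hK W hW hne hB
    have h8 : Av W (fun π => ∑ i ∈ range W.card,
        iA τ π i * cc W.card (AL τ W (pre π i)).card (W.card - i)) =
        Av W (fun π => ∑ i ∈ range W.card, iA τ π i * (gg W.card (AL τ W (pre π i)).card -
          gg (W.card - 1) (AL τ (pre π (W.card - 1)) (pre π i)).card)) := by
      rw [Av_sum, Av_sum]
      refine sum_congr rfl fun i hi => ?_
      exact charge_g τ W (mem_range.1 hi)
    rw [h8] at h7
    have h9 : Av W (fun π => TSx τ D ρ (cset ρ mk D) W π -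
        Real.log (D.card : ℝ) * ∑ k ∈ range W.card, iE τ π k) =
        (Real.log (W.card : ℝ) - Real.log (D.card : ℝ)) *
          Av W (fun π => ∑ k ∈ range W.card, iE τ π k) + Av W (cstK τ (ρ (D \ W)) W) +
          Av W (gnK τ D mk W.card) := by
      rw [← Av_mul, ← Av_add, ← Av_add]
      refine Av_congr fun π hπ => ?_
      rw [TSx_cset τ ρ mk hW hπ]
      ring
    have h10 : Av W (fun π => lowC τ D.card cr W π + gnK τ D mk W.card π) =
        lamn W.card * Av W (fun π => ∑ k ∈ range W.card,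
          iE τ π k * (((W.card : ℝ) - 1 - k) + cr W π k)) +
        (Real.log (W.card : ℝ) - Real.log (D.card : ℝ)) *
          Av W (fun π => ∑ k ∈ range W.card, iE τ π k) -
        Av W (fun π => ∑ i ∈ range W.card, iA τ π i * (gg W.card (AL τ W (pre π i)).card -
          gg (W.card - 1) (AL τ (pre π (W.card - 1)) (pre π i)).card)) +
        Av W (gnK τ D mk W.card) := by
      rw [← Av_mul, ← Av_mul, ← Av_add, ← Av_sub, ← Av_add]
      refine Av_congr fun π _ => ?_
      unfold lowC low
      simp only [mul_add, sum_add_distrib]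
      ring
    rw [h9, h10]
    linarith

end K

end R5
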