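import Pool.Agent.Work.MP_8b6acb_ti.Side
import Pool.Agent.Work.MP_8b6acb_fs.Defs

/-!
# The T-side of the value with a general set kernel as an average over orders (helper32)

`SGx` of the dual type (any extra part `χ`) in first exit form, and the passage from a statewise
bound to a path bound (both sides).  Built on helper55's T-form.
-/

namespace R5

namespace K

open Finset

variable {α : Type} [DecidableEq α]

/-- the functional of a T-state `W` for the extra part `χ` -/
noncomputable def TSx (τ : Finset α → Lab) (D : Finset α) (ρ : Finset α → α → ℝ)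
    (χ : Finset α → Finset α → ℝ) (W : Finset α) (π : List α) : ℝ :=
  ∑ k ∈ range W.card,
    ((if exE τ π k then (∑ x ∈ nx π k, (Real.log (W.card : ℝ) - Real.log (ρ (D \ W) x))) +
        (χ (D \ W) (D \ pre π k) - Real.log (fw τ (pre π k))) else 0) +
     (if exX τ π k then χ (D \ W) (D \ pre π (k + 1)) -
        Real.log (fwb τ (pre π (k + 1))) else 0))

/-- **the T-form for the extra part `χ`** -/
theorem TFormK (τ : Finset α → Lab) (D : Finset α) (ρ : Finset α → α → ℝ)
    (χ : Finset α → Finset α → ℝ) (h0 : τ ∅ = Lab.A) :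
    SGx (dual τ D) D ρ χ =
      (∑ W ∈ D.powerset, bw τ D W / (D.card.choose W.card : ℝ) * Av W (TSx τ D ρ χ W)) /
        ((D.card : ℝ) + 1) := by
  unfold SGx
  rw [← sum_powerset_compl, sum_div]
  refine sum_congr rfl fun W hW => ?_
  rw [mem_powerset] at hW
  have hDD : D \ (D \ W) = W := Finset.sdiff_sdiff_eq_self hW
  rw [sum_PP1, hDD]
  -- the edges
  have hE : ∑ V ∈ D.powerset, ∑ x ∈ D \ V, pe (dual τ D) D (D \ W) V x *
        (Real.log (W.card : ℝ) - Real.log (ρ (D \ W) x)) +
      ∑ V ∈ D.powerset, ∑ x ∈ D \ V, pe (dual τ D) D (D \ W) V x *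
        (χ (D \ W) (insert x V) - Real.log (bw (dual τ D) D (insert x V))) =
      bw τ D W / (D.card.choose W.card : ℝ) * Av W (fun π => ∑ k ∈ range W.card,
        (if exE τ π k then (∑ x ∈ nx π k, (Real.log (W.card : ℝ) - Real.log (ρ (D \ W) x))) +
          (χ (D \ W) (D \ pre π k) - Real.log (fw τ (pre π k))) else 0)) /
        ((D.card : ℝ) + 1) := by
    rw [← sum_add_distrib]
    simp only [← sum_add_distrib]
    rw [← sum_edge_compl]
    have h1 : ∀ U ∈ D.powerset, ∀ x ∈ D \ U,
        (pe (dual τ D) D (D \ W) (D \ insert x U) x *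
          (Real.log (W.card : ℝ) - Real.log (ρ (D \ W) x)) +
        pe (dual τ D) D (D \ W) (D \ insert x U) x *
          (χ (D \ W) (insert x (D \ insert x U)) -
            Real.log (bw (dual τ D) D (insert x (D \ insert x U))))) =
        if insert x U ⊆ W ∧ isE τ U x then
          bw τ D W / (D.card.choose W.card : ℝ) / ((D.card : ℝ) + 1) *
            ((if isE τ U x then Av U (fun π1 => if allA τ π1 U.card then
              (Real.log (W.card : ℝ) - Real.log (ρ (D \ W) x)) +
              (χ (D \ W) (D \ U) - Real.log (fw τ U)) else 0) else 0) /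
              ((W.card.choose U.card : ℝ) * ((W.card : ℝ) - U.card))) else 0 := by
      intro U hU x hx
      rw [mem_powerset] at hU
      have hx' := mem_sdiff.1 hx
      have h2 : insert x (D \ insert x U) = D \ U := by
        ext y
        simp only [mem_sdiff, mem_insert, not_or]
        by_cases hy : y = x
        · subst hy; simp [hx'.1, hx'.2]
        · simp [hy]
      rw [pe_dual τ hW hU hx, h2, bw_dual, Finset.sdiff_sdiff_eq_self hU]
      by_cases h : insert x U ⊆ W ∧ isE τ U x
      · rw [if_pos h, if_pos h, if_pos h.2]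
        have h3 : Av U (fun π1 => if allA τ π1 U.card then
              (Real.log (W.card : ℝ) - Real.log (ρ (D \ W) x)) +
              (χ (D \ W) (D \ U) - Real.log (fw τ U)) else 0) =
            (Real.log (W.card : ℝ) - Real.log (ρ (D \ W) x) +
              (χ (D \ W) (D \ U) - Real.log (fw τ U))) * fw τ U := by
          conv_rhs => rw [fw_eq_Av τ U, ← Av_mul]
          rw [fw_eq_Av τ U]
          refine Av_congr fun π _ => ?_
          split_ifs
          · ring
          · ring
        rw [h3]
        ring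
      · rw [if_neg h, if_neg h]
        ring
    rw [sum_congr rfl fun U hU => sum_congr rfl (h1 U hU)]
    rw [sum_restrict_edge hW (fun U x => isE τ U x), sum_levels_edge, Av_sum, mul_div_right_comm,
      mul_sum]
    refine sum_congr rfl fun k hk => ?_
    rw [mem_range] at hk
    have h4 : Av W (fun π => if exE τ π k then
        (∑ x ∈ nx π k, (Real.log (W.card : ℝ) - Real.log (ρ (D \ W) x))) +
          (χ (D \ W) (D \ pre π k) - Real.log (fw τ (pre π k))) else 0) =
        Av W (fun π => if exE τ π k then ∑ x ∈ pre π (k + 1) \ pre π k,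
          (fun (U : Finset α) (x : α) (_π1 : List α) =>
            (Real.log (W.card : ℝ) - Real.log (ρ (D \ W) x)) +
              (χ (D \ W) (D \ U) - Real.log (fw τ U))) (pre π k) x (π.take k) else 0) := by
      refine Av_congr fun π hπ => ?_
      have h5 := sum_nx_add hπ hk (fun x => Real.log (W.card : ℝ) - Real.log (ρ (D \ W) x))
        (χ (D \ W) (D \ pre π k) - Real.log (fw τ (pre π k)))
      rw [← h5]
      rfl
    rw [h4, Av_exE τ hk (fun (U : Finset α) (x : α) (_π1 : List α) =>
            (Real.log (W.card : ℝ) - Real.log (ρ (D \ W) x)) +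
              (χ (D \ W) (D \ U) - Real.log (fw τ U)))]
    rw [mul_sum]
    refine sum_congr rfl fun U hU => ?_
    obtain ⟨hU1, hU2⟩ := mem_powersetCard.1 hU
    rw [mul_sum]
    refine sum_congr rfl fun x _ => ?_
    rw [hU2]
    split_ifs with h
    · rfl
    · simp
  -- the vertices
  have hX : ∑ V ∈ D.powerset, pv (dual τ D) D (D \ W) V *
        (χ (D \ W) V - Real.log (bwb (dual τ D) D V)) =
      bw τ D W / (D.card.choose W.card : ℝ) * Av W (fun π => ∑ k ∈ range W.card,
        (if exX τ π k then χ (D \ W) (D \ pre π (k + 1)) -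
          Real.log (fwb τ (pre π (k + 1))) else 0)) / ((D.card : ℝ) + 1) := by
    rw [← sum_powerset_compl]
    have h1 : ∀ U ∈ D.powerset,
        pv (dual τ D) D (D \ W) (D \ U) * (χ (D \ W) (D \ U) -
          Real.log (bwb (dual τ D) D (D \ U))) =
        if U ⊆ W ∧ τ U = Lab.X then
          bw τ D W / (D.card.choose W.card : ℝ) / ((D.card : ℝ) + 1) *
            ((if τ U = Lab.X then Av U (fun π1 => if allA τ π1 (U.card - 1) then
              χ (D \ W) (D \ U) - Real.log (fwb τ U) else 0) else 0) /
                (W.card.choose U.card : ℝ)) else 0 := by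
      intro U hU
      rw [mem_powerset] at hU
      rw [pv_dual τ hW hU, bwb_dual, Finset.sdiff_sdiff_eq_self hU]
      by_cases h : U ⊆ W ∧ τ U = Lab.X
      · rw [if_pos h, if_pos h, if_pos h.2]
        have hne : U.Nonempty := by
          rw [nonempty_iff_ne_empty]
          rintro rfl
          rw [h0] at h
          exact absurd h.2 (by decide)
        have h3 : Av U (fun π1 => if allA τ π1 (U.card - 1) then
              χ (D \ W) (D \ U) - Real.log (fwb τ U) else 0) =
            (χ (D \ W) (D \ U) - Real.log (fwb τ U)) * fwb τ U := by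
          conv_rhs => rw [fwb_eq_Av τ hne, ← Av_mul]
          rw [fwb_eq_Av τ hne]
          refine Av_congr fun π _ => ?_
          split_ifs
          · ring
          · ring
        rw [h3]
        ring
      · rw [if_neg h, if_neg h]
        ring
    rw [sum_congr rfl h1, sum_restrict_vert hW (fun U => τ U = Lab.X), sum_levels_vert _ _ (by
      rw [if_neg]
      rw [h0]
      decide), Av_sum, mul_div_right_comm, mul_sum]
    refine sum_congr rfl fun k hk => ?_
    rw [mem_range] at hk
    rw [Av_exX τ hk (fun (U : Finset α) (_π1 : List α) =>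
              χ (D \ W) (D \ U) - Real.log (fwb τ U))]
    rw [mul_sum]
    refine sum_congr rfl fun U hU => ?_
    obtain ⟨hU1, hU2⟩ := mem_powersetCard.1 hU
    rw [hU2, Nat.add_sub_cancel]
    split_ifs with h
    · rfl
    · simp
  rw [hE, hX, ← add_div, ← mul_add, ← Av_add]
  congr 2
  refine Av_congr fun π _ => ?_
  unfold TSx
  rw [sum_add_distrib]

/-- From a bound for every T-state to the T side. -/
theorem side_total_K (τ : Finset α → Lab) (D : Finset α) (ρ : Finset α → α → ℝ)
    (χ : Finset α → Finset α → ℝ) (h0 : τ ∅ = Lab.A) (hD : τ D = Lab.B)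
    (lw : Finset α → List α → ℝ)
    (h : ∀ W ⊆ D, W.Nonempty → τ W = Lab.B → Av W (lw W) ≤
      Av W (fun π => TSx τ D ρ χ W π - Real.log (D.card : ℝ) * ∑ k ∈ range W.card, iE τ π k)) :
    Av D (fun π => ∑ j ∈ Ioc (kN τ π) D.card, lw (pre π j) (π.take j)) ≤
    ((D.card : ℝ) + 1) * (SGx (dual τ D) D ρ χ - Real.log (D.card : ℝ) * PEL (dual τ D) D) := by
  have h0' : τ ∅ ≠ Lab.B := by rw [h0]; decide
  rw [TFormK τ D ρ χ h0, PEL_eq]
  have hl : (0 : ℝ) < (D.card : ℝ) + 1 := by positivity
  have e1 : ((D.card : ℝ) + 1) *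
      ((∑ W ∈ D.powerset, bw τ D W / (D.card.choose W.card : ℝ) * Av W (TSx τ D ρ χ W)) /
        ((D.card : ℝ) + 1) - Real.log (D.card : ℝ) *
      ((∑ W ∈ D.powerset, bw τ D W / (D.card.choose W.card : ℝ) *
        Av W (fun π => ∑ k ∈ range W.card, iE τ π k)) / ((D.card : ℝ) + 1))) =
      ∑ W ∈ D.powerset, bw τ D W / (D.card.choose W.card : ℝ) *
        (Av W (TSx τ D ρ χ W) - Real.log (D.card : ℝ) *
          Av W (fun π => ∑ k ∈ range W.card, iE τ π k)) := by
    simp only [mul_sub, sum_sub_distrib]
    field_simp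
    congr 1
    rw [mul_sum]
    refine sum_congr rfl fun W _ => by ring
  have e2 : Av D (fun π => ∑ j ∈ Ioc (kN τ π) D.card, lw (pre π j) (π.take j)) =
      Av D (fun π => ∑ j ∈ range (D.card + 1), iB τ π j * lw (pre π j) (π.take j)) :=
    Av_congr fun π hπ => (sum_iB h0' hD hπ (fun j => lw (pre π j) (π.take j))).symm
  rw [e1, e2, ← sum_bw τ D lw]
  refine sum_le_sum fun W hW => ?_
  rw [mem_powerset] at hW
  by_cases hB : τ W = Lab.B
  · apply mul_le_mul_of_nonneg_left _ (div_nonneg (bw_nonneg _ _ _) (Nat.cast_nonneg _))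
    have hne : W.Nonempty := by
      rw [nonempty_iff_ne_empty]
      rintro rfl
      rw [h0] at hB
      exact absurd hB (by decide)
    have h2 := h W hW hne hB
    rw [Av_sub, Av_mul] at h2
    exact h2
  · rw [bw_of_ne hW hB, zero_div, zero_mul, zero_mul]

/-- `SGx` only sees the type on subsets of `D` -/
theorem SGx_dual_dual (τ : Finset α → Lab) (D : Finset α) (ρ : Finset α → α → ℝ)
    (χ : Finset α → Finset α → ℝ) : SGx (dual (dual τ D) D) D ρ χ = SGx τ D ρ χ := by
  have hd : ∀ U ⊆ D, dual (dual τ D) D U = τ U := fun U hU => dual_dual hU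
  have hfw : ∀ U ⊆ D, fw (dual (dual τ D) D) U = fw τ U := fun U hU =>
    fw_congr fun X hX => hd X (hX.trans hU)
  have hbw : ∀ U, bw (dual (dual τ D) D) D U = bw τ D U := by
    intro U
    unfold bw
    exact fw_congr fun X hX => dual_dual (τ := dual τ D) (hX.trans sdiff_subset)
  have hisE : ∀ V ⊆ D, ∀ x ∈ D \ V, (isE (dual (dual τ D) D) V x ↔ isE τ V x) := by
    intro V hV x hx
    unfold isE
    rw [hd V hV, hd _ (insert_subset (mem_sdiff.1 hx).1 hV)]
  have hpe : ∀ X ⊆ D, ∀ V ⊆ D, ∀ x ∈ D \ V,
      pe (dual (dual τ D) D) D X V x = pe τ D X V x := by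
    intro X hX V hV x hx
    unfold pe
    simp only [hisE V hV x hx, hfw X hX, hbw]
  have hbwb : ∀ V, bwb (dual (dual τ D) D) D V = bwb τ D V := by
    intro V
    unfold bwb
    simp only [hbw]
  have hpv : ∀ X ⊆ D, ∀ V ⊆ D, pv (dual (dual τ D) D) D X V = pv τ D X V := by
    intro X hX V hV
    unfold pv
    simp only [hd V hV, hfw X hX, hbwb]
  unfold SGx
  refine sum_congr rfl fun X hX => ?_
  rw [mem_powerset] at hX
  congr 1
  · congr 1
    · refine sum_congr rfl fun g hg => ?_
      congr 1
      unfold PP1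
      refine sum_congr rfl fun V hV => ?_
      rw [mem_powerset, subset_erase] at hV
      exact hpe X hX V hV.1 g (mem_sdiff.2 ⟨(mem_sdiff.1 hg).1, hV.2⟩)
    · refine sum_congr rfl fun V hV => sum_congr rfl fun x hx => ?_
      rw [mem_powerset] at hV
      rw [hpe X hX V hV x hx, hbw]
  · refine sum_congr rfl fun V hV => ?_
    rw [mem_powerset] at hV
    rw [hpv X hX V hV, hbwb]

/-- From a bound for every S-state (T-state of the dual type) to the S side. -/
theorem side_total_KS (τ : Finset α → Lab) (D : Finset α) (ρ : Finset α → α → ℝ)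
    (χ : Finset α → Finset α → ℝ) (h0 : τ ∅ = Lab.A) (hD : τ D = Lab.B)
    (lw : Finset α → List α → ℝ)
    (h : ∀ W ⊆ D, W.Nonempty → dual τ D W = Lab.B → Av W (lw W) ≤
      Av W (fun π => TSx (dual τ D) D ρ χ W π -
        Real.log (D.card : ℝ) * ∑ k ∈ range W.card, iE (dual τ D) π k)) :
    Av D (fun π => ∑ j ∈ range (kA τ π + 1), lw (D \ pre π j) ((π.drop j).reverse)) ≤
    ((D.card : ℝ) + 1) * (SGx τ D ρ χ - Real.log (D.card : ℝ) * PEL τ D) := by
  have hD' : τ D ≠ Lab.A := by rw [hD]; decide
  have d0 : dual τ D ∅ = Lab.A := by rw [dual_flip, sdiff_empty, hD]; rfl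
  have dD : dual τ D D = Lab.B := by rw [dual_flip, sdiff_self, bot_eq_empty, h0]; rfl
  have h1 := side_total_K (dual τ D) D ρ χ d0 dD lw h
  rw [SGx_dual_dual, PEL_dual_dual] at h1
  refine le_trans (le_of_eq ?_) h1
  rw [← Av_reverse D (fun π => ∑ j ∈ Ioc (kN (dual τ D) π) D.card, lw (pre π j) (π.take j))]
  refine Av_congr fun π hπ => ?_
  rw [kN_dual h0 hD hπ]
  have hlt := kA_lt h0 hD' hπ
  refine sum_bij' (fun j _ => D.card - j) (fun j _ => D.card - j) ?_ ?_ ?_ ?_ ?_
  · intro j hj
    rw [mem_range] at hj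
    rw [mem_Ioc]
    omega
  · intro j hj
    rw [mem_Ioc] at hj
    rw [mem_range]
    omega
  · intro j hj
    rw [mem_range] at hj
    omega
  · intro j hj
    rw [mem_Ioc] at hj
    omega
  · intro j hj
    rw [mem_range] at hj
    rw [pre_reverse hπ (by omega), List.take_reverse, length_of_mem hπ]
    have e : D.card - (D.card - j) = j := by omega
    rw [e]

end K

end R5
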